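import Pool.Agent.H559.EH.Fin
import Pool.Agent.H559.BS.Main

set_option autoImplicit false

/-!
# All admissible patterns of diameter up to `(2 e^(-γ) - ε) log² X` occur, in the random sieve model with the true small primes

For every prime `q` a residue class `a q` modulo `q` is drawn uniformly and independently. The random primes are the
integers `v ≥ 3` which are, for all primes `q ≤ z v`, not in the class `0` modulo `q` if `q ≤ (log v) ^ c`, and not in the
class `a q` modulo `q` if `q > (log v) ^ c`. This is the model of Banks, Ford and Tao (*Large prime gaps and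
probabilistic models*) in which the small primes sieve out the class `0` as they do for the true primes. The sieving
limit `z` is any nondecreasing function for which `∏_{q ≤ z v} (1 - 1 / q)` is asymptotic to `1 / log v`; the choice `zBFT`
of Banks, Ford and Tao is one of them. The exponent `c` is any number larger than `1`.

The theorem: almost surely, for all `ν`, `κ > 0` and `lam` with `κ < 1 - lam e^γ / 2` and all large `X`, EVERY admissible set `H`
with `0 ∈ H`, `2 ≤ |H| ≤ ν` and `max H ≤ lam log² X` is the pattern of the random primes in `[v, v + max H]` for at least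
`X ^ κ` places `v ≤ X - max H`. With `H = {0, g}`: every even `g ≤ lam log² X` is at least `X ^ κ` times the difference of two
consecutive random primes below `X`. Hence (part 2) the largest gap `G(X)` satisfies `liminf G(X) / log² X ≥ 2 e^(-γ) = 1.1229…`, so
`G(X) ~ log² X` (Q1) fails in the model.

The proof prescribes the class of `v` modulo the product of the primes `≤ η log X` such that few integers of
`(v, v + g)`, `g = max H`, (`(1 + o(1)) g / log g` of them) are coprime to this product while all the `v + h` are, for EVERY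
admissible `H`, although the small primes sieve out only the class `0`; sieves by the primes up to `X ^ δ` with the fundamental
lemma and second moments; and compares the probability that the larger primes hit all the remaining integers between `v` and
`v + g`, but none of the `v + h`, with independence.
-/

open MeasureTheory ProbabilityTheory Filter Topology

namespace Pool.Agent.Results.MP_f9960f_nt.EveryPatternInRandomSieve

/-- `V m = ∏ (1 - 1 / q)` over the primes `q ≤ m` -/
noncomputable def V (m : ℕ) : ℝ := ∏ q ∈ (Finset.range (m + 1)).filter Nat.Prime, (1 - 1 / (q : ℝ))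

/-- the classes `a q` are independent, and `a q` is uniform on `0, …, q - 1` for every prime `q` -/
structure Model {Ω : Type} [MeasurableSpace Ω] (P : Measure Ω) (a : ℕ → Ω → ℕ) : Prop where
  measurable : ∀ q, Measurable (a q)
  independent : iIndepFun a P
  uniform : ∀ q, q.Prime → ∀ r < q, P.real {ω | a q ω = r} = 1 / q

/-- the sieving limit of Banks, Ford and Tao: the largest `m` with `∏_{q ≤ m} (1 - 1 / q)⁻¹ ≤ log n` -/
noncomputable def zBFT (n : ℕ) : ℕ := sSup {m : ℕ | (V m)⁻¹ ≤ Real.log n}

/-- the admissible sieving limits: the density of the random primes near `v` is asymptotic to `1 / log v` -/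
def Limit (z : ℕ → ℕ) : Prop := Monotone z ∧ Tendsto (fun v => V (z v) * Real.log v) atTop (𝓝 1)

open Classical in
/-- the set of the random primes of a sample -/
def R {Ω : Type} (z : ℕ → ℕ) (c : ℝ) (a : ℕ → Ω → ℕ) (ω : Ω) : Set ℕ :=
  {v | 3 ≤ v ∧ ∀ q ≤ z v, q.Prime → v % q ≠ if (q : ℝ) ≤ Real.log v ^ c then 0 else a q ω}

/-- `H` misses a class modulo every prime -/
def Admissible (H : Finset ℕ) : Prop := ∀ p : ℕ, p.Prime → ∃ s < p, ∀ h ∈ H, h % p ≠ s

/-- the number of the `v` with `v + max H ≤ X` for which the elements of `A` in `[v, v + max H]` are exactly the `v + h`, `h ∈ H` -/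
noncomputable def patternCount (A : Set ℕ) (H : Finset ℕ) (X : ℕ) : ℕ :=
  {v : ℕ | v + H.sup id ≤ X ∧ ∀ n ≤ H.sup id, (v + n ∈ A ↔ n ∈ H)}.ncard

/-- the largest gap `g > 0` between consecutive elements `v, v + g` of `A` with `v ≤ X` -/
noncomputable def maxGap (A : Set ℕ) (X : ℕ) : ℕ :=
  sSup {g : ℕ | 0 < g ∧ ∃ v, v ≤ X ∧ v ∈ A ∧ v + g ∈ A ∧ ∀ n, v < n → n < v + g → n ∉ A}

/-- the gaps up to `X` form a finite set -/
theorem bdd (A : Set ℕ) (X : ℕ) :
    BddAbove {g : ℕ | 0 < g ∧ ∃ v, v ≤ X ∧ v ∈ A ∧ v + g ∈ A ∧ ∀ n, v < n → n < v + g → n ∉ A} := by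
  have h1 : {g : ℕ | 0 < g ∧ ∃ v, v ≤ X ∧ v ∈ A ∧ v + g ∈ A ∧ ∀ n, v < n → n < v + g → n ∉ A} ⊆
      ⋃ v ∈ Finset.range (X + 1), {g : ℕ | 0 < g ∧ v + g ∈ A ∧ ∀ n, v < n → n < v + g → n ∉ A} := by
    rintro g ⟨h0, v, hv, _, h2, h3⟩
    rw [Set.mem_iUnion₂]
    exact ⟨v, Finset.mem_range.2 (by omega), h0, h2, h3⟩
  refine Set.Finite.bddAbove (Set.Finite.subset ?_ h1)
  refine Set.Finite.biUnion (Finset.finite_toSet _) fun v _ => ?_
  refine Set.Subsingleton.finite fun g hg g' hg' => ?_
  obtain ⟨a0, a1, a2⟩ := hg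
  obtain ⟨b0, b1, b2⟩ := hg'
  rcases lt_trichotomy g g' with h | h | h
  · exact absurd a1 (b2 _ (by omega) (by omega))
  · exact h
  · exact absurd b1 (a2 _ (by omega) (by omega))

/-- `2 e^(-γ) > 1` -/
theorem const_gt : 1 < 2 * Real.exp (-Real.eulerMascheroniConstant) := by
  have h1 := Real.eulerMascheroniConstant_lt_two_thirds
  have h2 : Real.exp (-(2 / 3 : ℝ)) < Real.exp (-Real.eulerMascheroniConstant) := Real.exp_lt_exp.2 (by linarith)
  have h3 : Real.exp (2 / 3 : ℝ) < 2 := by
    have h4 : Real.exp (2 / 3 : ℝ) ^ 3 < 2 ^ 3 := by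
      rw [← Real.exp_nat_mul]
      have h5 : ((3 : ℕ) : ℝ) * (2 / 3) = 1 + 1 := by norm_num
      rw [h5, Real.exp_add]
      have := Real.exp_one_lt_d9
      have h6 := Real.exp_pos 1
      nlinarith
    exact lt_of_pow_lt_pow_left₀ 3 (by norm_num) h4
  have h4 : (1 : ℝ) / 2 < Real.exp (-(2 / 3 : ℝ)) := by
    rw [Real.exp_neg, one_div]
    exact inv_strictAnti₀ (Real.exp_pos _) h3
  linarith

/-- the pairs with an even difference are admissible -/
theorem adm_pair (g : ℕ) (hg : Even g) : Admissible {0, g} := by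
  intro p hp
  rcases hp.eq_two_or_odd' with rfl | h2
  · refine ⟨1, by norm_num, fun h hh => ?_⟩
    rw [Finset.mem_insert, Finset.mem_singleton] at hh
    rcases hh with rfl | rfl
    · norm_num
    · rw [Nat.even_iff.1 hg]
      norm_num
  · have h3 : 3 ≤ p := by
      have := hp.two_le
      rcases Nat.lt_or_ge 2 p with h | h
      · omega
      · have : p = 2 := by omega
        subst this
        exact absurd h2 (by decide)
    by_cases h4 : g % p = 1
    · refine ⟨2, by omega, fun h hh => ?_⟩
      rw [Finset.mem_insert, Finset.mem_singleton] at hh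
      rcases hh with rfl | rfl
      · rw [Nat.zero_mod]
        norm_num
      · omega
    · refine ⟨1, by omega, fun h hh => ?_⟩
      rw [Finset.mem_insert, Finset.mem_singleton] at hh
      rcases hh with rfl | rfl
      · rw [Nat.zero_mod]
        norm_num
      · exact h4

theorem result :
    (∃ (Ω : Type) (_ : MeasurableSpace Ω) (P : Measure Ω) (a : ℕ → Ω → ℕ), Model P a) ∧ Limit zBFT ∧
    ∀ c : ℝ, 1 < c → ∀ z : ℕ → ℕ, Limit z →
      ∀ (Ω : Type) [MeasurableSpace Ω] (P : Measure Ω) (a : ℕ → Ω → ℕ), Model P a →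
        ∀ᵐ ω ∂P,
          (∀ (ν : ℕ) (lam κ : ℝ), 0 < κ → κ < 1 - lam * Real.exp Real.eulerMascheroniConstant / 2 →
            ∀ᶠ X : ℕ in atTop, ∀ H : Finset ℕ, 0 ∈ H → 2 ≤ H.card → H.card ≤ ν → Admissible H →
              ((H.sup id : ℕ) : ℝ) ≤ lam * Real.log X ^ 2 → (X : ℝ) ^ κ ≤ patternCount (R z c a ω) H X) ∧
          (∀ lam : ℝ, lam < 2 * Real.exp (-Real.eulerMascheroniConstant) →
            ∀ᶠ X : ℕ in atTop, lam * Real.log X ^ 2 ≤ maxGap (R z c a ω) X) ∧
          ¬ Tendsto (fun X : ℕ => (maxGap (R z c a ω) X : ℝ) / Real.log X ^ 2) atTop (𝓝 1) := by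
  classical
  refine ⟨?_, ⟨Pool.Agent.T2H32.BF.z0_mono, Pool.Agent.T2H32.BF.z0_lim⟩, ?_⟩
  · obtain ⟨Ω, i, P, a, h⟩ := Pool.Agent.T2H32.BF.exists_model
    exact ⟨Ω, i, P, a, h.measurable, h.independent, h.uniform⟩
  · intro c hc z hz Ω _ P a hmod
    have h : Pool.Agent.T2H32.BF.Model P a := ⟨hmod.measurable, hmod.independent, hmod.uniform⟩
    filter_upwards [Pool.Agent.H559.EH.main c hc z hz Ω P a h] with ω hω
    have e : Pool.Agent.H559.IX.R0 z c (fun q => a q ω) = R z c a ω := rfl
    rw [e] at hω
    have h1 : ∀ (ν : ℕ) (lam κ : ℝ), 0 < κ → κ < 1 - lam * Real.exp Real.eulerMascheroniConstant / 2 →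
            ∀ᶠ X : ℕ in atTop, ∀ H : Finset ℕ, 0 ∈ H → 2 ≤ H.card → H.card ≤ ν → Admissible H →
              ((H.sup id : ℕ) : ℝ) ≤ lam * Real.log X ^ 2 → (X : ℝ) ^ κ ≤ patternCount (R z c a ω) H X := by
      intro ν lam κ h2 h3
      filter_upwards [hω ν lam κ h2 h3] with X hX H g0 g1 g2 g3 g4
      have hle : ∀ h ∈ H, h ≤ H.sup id := fun h hh => Finset.le_sup (f := id) hh
      obtain ⟨h', hh', he⟩ := Finset.exists_mem_eq_sup H ⟨0, g0⟩ id
      have hmem : H.sup id ∈ H := by
        rw [he]
        exact hh'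
      have hpos : 1 ≤ H.sup id := by
        by_contra hcon
        have h4 : H ⊆ {0} := fun h hh => by
          rw [Finset.mem_singleton]
          have := hle h hh
          omega
        have := Finset.card_le_card h4
        rw [Finset.card_singleton] at this
        omega
      refine (hX (H.sup id) H ⟨hpos, g0, hmem, hle, g2, g3⟩ g4).trans ?_
      unfold patternCount
      refine Nat.cast_le.2 (Set.ncard_le_ncard ?_ ?_)
      · rintro v ⟨a1, a2, a3⟩
        refine ⟨a1, fun n hn => ⟨fun hR => ?_, fun hH => a2 n hH⟩⟩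
        by_contra hcon
        have n0 : n ≠ 0 := fun h => hcon (h ▸ g0)
        have n1 : n ≠ H.sup id := fun h => hcon (h ▸ hmem)
        refine a3 (v + n) (by omega) (by omega) ?_ hR
        rwa [Nat.add_sub_cancel_left]
      · refine (Set.finite_Iic X).subset fun v hv => ?_
        rw [Set.mem_Iic]
        exact (Nat.le_add_right _ _).trans hv.1
    have hlogT : Tendsto (fun n : ℕ => Real.log (n : ℝ)) atTop atTop :=
      Real.tendsto_log_atTop.comp tendsto_natCast_atTop_atTop
    have h2 : ∀ lam : ℝ, lam < 2 * Real.exp (-Real.eulerMascheroniConstant) →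
        ∀ᶠ X : ℕ in atTop, lam * Real.log X ^ 2 ≤ maxGap (R z c a ω) X := by
      intro lam hlam
      rcases le_or_gt lam 0 with hl | hl
      · refine Eventually.of_forall fun X => ?_
        have h3 : lam * Real.log X ^ 2 ≤ 0 := mul_nonpos_of_nonpos_of_nonneg hl (by positivity)
        exact h3.trans (Nat.cast_nonneg _)
      obtain ⟨lam', h3, h4⟩ := exists_between hlam
      have hE := Real.exp_pos Real.eulerMascheroniConstant
      have h5 : 0 < 1 - lam' * Real.exp Real.eulerMascheroniConstant / 2 := by
        have h6 : lam' * Real.exp Real.eulerMascheroniConstant <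
            2 * Real.exp (-Real.eulerMascheroniConstant) * Real.exp Real.eulerMascheroniConstant :=
          mul_lt_mul_of_pos_right h4 hE
        rw [mul_assoc, ← Real.exp_add, neg_add_cancel, Real.exp_zero] at h6
        linarith
      obtain ⟨κ, h6, h7⟩ := exists_between h5
      have hbig : ∀ᶠ X : ℕ in atTop, 2 ≤ (lam' - lam) * Real.log X ^ 2 := by
        have h8 : Tendsto (fun n : ℕ => (lam' - lam) * Real.log (n : ℝ) ^ 2) atTop atTop :=
          Tendsto.const_mul_atTop (by linarith) ((tendsto_pow_atTop (by norm_num)).comp hlogT)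
        exact h8.eventually_ge_atTop 2
      filter_upwards [h1 2 lam' κ h6 h7, hbig, hlogT.eventually_ge_atTop 1, eventually_ge_atTop 2] with X h8 h9 h10 h11
      have hpos : 0 < lam * Real.log X ^ 2 := by positivity
      set g : ℕ := 2 * ⌈lam * Real.log X ^ 2 / 2⌉₊ with hg
      have hc1 : lam * Real.log X ^ 2 / 2 ≤ ⌈lam * Real.log X ^ 2 / 2⌉₊ := Nat.le_ceil _
      have hc2 : (⌈lam * Real.log X ^ 2 / 2⌉₊ : ℝ) < lam * Real.log X ^ 2 / 2 + 1 := Nat.ceil_lt_add_one (by positivity)
      have hc3 : 0 < ⌈lam * Real.log X ^ 2 / 2⌉₊ := Nat.ceil_pos.2 (by positivity)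
      have hg1 : lam * Real.log X ^ 2 ≤ g := by
        rw [hg]
        push_cast
        linarith
      have hg2 : (g : ℝ) ≤ lam' * Real.log X ^ 2 := by
        rw [hg]
        push_cast
        linarith
      have hg0 : 0 ≠ g := by omega
      have hsup : ({0, g} : Finset ℕ).sup id = g := by
        rw [Finset.sup_insert, Finset.sup_singleton]
        simp
      have hcard : ({0, g} : Finset ℕ).card = 2 := Finset.card_pair hg0
      have h12 := h8 {0, g} (Finset.mem_insert_self _ _) hcard.ge hcard.le (adm_pair g (even_two_mul _)) (by rw [hsup]; exact hg2)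
      have hX0 : (0 : ℝ) < X := by
        have : 0 < X := by omega
        exact_mod_cast this
      have h13 : 0 < patternCount (R z c a ω) {0, g} X := by
        have h14 : (0 : ℝ) < patternCount (R z c a ω) {0, g} X := (Real.rpow_pos_of_pos hX0 κ).trans_le h12
        exact_mod_cast h14
      obtain ⟨v, hv1, hv2⟩ := Set.nonempty_of_ncard_ne_zero h13.ne'
      rw [hsup] at hv1 hv2
      have hm0 := (hv2 0 (Nat.zero_le _)).2 (Finset.mem_insert_self _ _)
      have hmg := (hv2 g le_rfl).2 (Finset.mem_insert_of_mem (Finset.mem_singleton_self _))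
      have h14 : g ≤ maxGap (R z c a ω) X := by
        refine le_csSup (bdd _ X) ⟨by omega, v, by omega, hm0, hmg, fun n hn1 hn2 hn3 => ?_⟩
        have h15 := (hv2 (n - v) (by omega)).1 (by
          have : v + (n - v) = n := by omega
          rw [this]
          exact hn3)
        rw [Finset.mem_insert, Finset.mem_singleton] at h15
        omega
      have h15 : (g : ℝ) ≤ maxGap (R z c a ω) X := by exact_mod_cast h14
      linarith
    refine ⟨h1, h2, fun hT => ?_⟩
    obtain ⟨lam, h3, h4⟩ := exists_between const_gt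
    have h5 := hT.eventually_lt_const h3
    obtain ⟨X, ⟨h6, h7⟩, h8⟩ := ((h5.and (h2 lam h4)).and (hlogT.eventually_ge_atTop 1)).exists
    have h9 : (0 : ℝ) < Real.log X ^ 2 := by positivity
    rw [div_lt_iff₀ h9] at h6
    linarith

end Pool.Agent.Results.MP_f9960f_nt.EveryPatternInRandomSieve
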