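import Mathlib
import Pool.Agent.H524.AllChar

/-!
Long intervals without irreducible polynomials over finite fields: for every finite field the
largest gap exceeds a power larger than one of the logarithm of the absolute value.
-/

open Polynomial

/-- Let `K` be a finite field of characteristic `p` with `q` elements. There is `c > 0` such
that for every `n ≥ 2`, with `X = q ^ n`, there are a monic polynomial `A` of degree `n` and a
natural number `h` with `c * (log X / log (log X)) ^ (p / (p - 1)) ≤ q ^ h` such that none of the
`q ^ h` polynomials `B` with `deg (B - A) < h` is irreducible. -/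
theorem Pool.Agent.Results.MP_f9960f_nt.FunctionFieldOdd.result
    (p : ℕ) (hp : p.Prime) (K : Type*) [Field K] [Fintype K] [CharP K p] :
    ∃ c : ℝ, 0 < c ∧ ∀ n : ℕ, 2 ≤ n → ∃ (A : K[X]) (h : ℕ), A.Monic ∧ A.natDegree = n ∧
      c * (Real.log ((Fintype.card K : ℝ) ^ n) /
        Real.log (Real.log ((Fintype.card K : ℝ) ^ n))) ^ ((p : ℝ) / ((p : ℝ) - 1)) ≤
          (Fintype.card K : ℝ) ^ h ∧
      ∀ B : K[X], (B - A).degree < (h : WithBot ℕ) → ¬ Irreducible B :=
  Pool.Agent.H524.gaps_all p hp
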