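import Pool.Agent.H560.MQ.Lev8

/-!
# No local model with the primes up to `(log N) ^ δ`, `δ < 1`, predicts the number of primes among `n + h`, `h ∈ H`

Author: helper560.

Maier (1985) proved that Cramér's model gives a wrong number of primes in some intervals of the length `(log x) ^ t`.
Granville's modification of the model takes the small primes into account: it leaves out the integers with a prime
factor `≤ w` and gives the remaining integers near `n` the probability `∏ p ≤ w (1 - 1/p)⁻¹ / log n`. Here `w` is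
arbitrary (`w = 0` is Cramér's model), and the intervals are replaced by arbitrary translated SETS: for a set
`H ⊆ [1, (log N) ^ t]` of shifts with at least `(log log N) ^ 2` elements we compare the number of the primes
`n + h`, `h ∈ H`, with the prediction `model H w n` by the number of the `n + h` without prime factors `≤ w`.
The theorem, for every `t > 1` and uniformly for ALL such sets `H`:

(B) for every `δ < 1` the prediction is wrong by at least `c |H| / log N` for all `w ≤ (log N) ^ δ`, each time for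
at least `N exp (-(log N) ^ θ)` integers `n ≤ N`, with a `θ < 1`;
(C) for every `κ > 0` there is `δ > 0` such that for all `w ≤ (log N) ^ δ` each of the two deviations by a constant
factor occurs for at least `N exp (-(log N) ^ κ)` integers `n ≤ N`;
(A) the factors: for `w` near `(log N) ^ δ` and `δ < θ < 1` the ratio of the number of primes to the prediction is at
most `ω(t/θ) / ω(t/δ) + ε` for at least `N exp (-(log N) ^ θ)` integers, and at least `ω(t/θ) / ω(t/δ) - ε` for as
many, `ω` Buchstab's function.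

If `|H| ≥ (log N) ^ (1 + θ + ε)` then in the model such deviations occur with a far smaller frequency than
`exp (-(log N) ^ θ)`, and for `|H| ≥ (log N) ^ (2 + ε)` they do not occur at all for large `n`.

Proof. Rows of matrices over the small modulus `∏ p ≤ (log N) ^ θ / 4`; sums over ALL classes `r ≤ (log N) ^ t` of the
number of the survivors `r + h` of the two sieves (Buchstab's asymptotic formula, the fundamental lemma), so that a
class with few (many) survivors in comparison with the prediction exists for every `H`; in the rows of this class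
the primes between the two sieving limits which divide some `n + h` are estimated on the average over the row.
-/

set_option autoImplicit false

open Filter

namespace Pool.Agent.Results.MP_f9960f_nt.LocalModelsFailForAllShifts

/-- `ω` is Buchstab's function: it is continuous on `[1, ∞)`, `u ω(u) = 1` for `1 ≤ u ≤ 2` and
`u ω(u) = 1 + ∫_1^(u-1) ω` for `u ≥ 2` -/
def IsBuchstab (ω : ℝ → ℝ) : Prop :=
  ContinuousOn ω (Set.Ici 1) ∧ (∀ u, 1 ≤ u → u ≤ 2 → u * ω u = 1) ∧
    ∀ u, 2 ≤ u → u * ω u = 1 + ∫ s in (1 : ℝ)..(u - 1), ω s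

/-- the number of the `h ∈ H` such that `n + h` is a prime -/
def primes (H : Finset ℕ) (n : ℕ) : ℕ := (H.filter (fun h => (n + h).Prime)).card

open Classical in
/-- the number of the `h ∈ H` such that `n + h` has no prime factor `≤ w` -/
noncomputable def rough (H : Finset ℕ) (w n : ℕ) : ℕ :=
  (H.filter (fun h => ∀ p : ℕ, p.Prime → p ≤ w → ¬ p ∣ n + h)).card

/-- the prediction of the local model with the primes `≤ w` for the number of the primes `n + h`, `h ∈ H` -/
noncomputable def model (H : Finset ℕ) (w n : ℕ) : ℝ :=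
  (rough H w n : ℝ) / ((∏ p ∈ (Finset.Icc 1 w).filter Nat.Prime, (1 - 1 / (p : ℝ))) * Real.log n)

/-- `H` is a set of shifts `≤ (log N) ^ t` with at least `(log log N) ^ 2` elements -/
def Shifts (t : ℝ) (N : ℕ) (H : Finset ℕ) : Prop :=
  (∀ h ∈ H, 1 ≤ h ∧ (h : ℝ) ≤ (Real.log N) ^ t) ∧ (Real.log (Real.log N)) ^ 2 ≤ H.card

open Classical in
/-- the number of the `N / 3 < n ≤ N` for which there are at most `a` times as many primes as predicted, and the
prediction is at least `c |H| / log N` -/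
noncomputable def few (a c : ℝ) (H : Finset ℕ) (w N : ℕ) : ℕ :=
  ((Finset.Icc 1 N).filter (fun n : ℕ => (N : ℝ) / 3 < n ∧ (primes H n : ℝ) ≤ a * model H w n ∧
    c * (H.card / Real.log N) ≤ model H w n)).card

open Classical in
/-- the number of the `N / 3 < n ≤ N` for which the number of primes is at least `a` times the prediction plus
`c |H| / log N` -/
noncomputable def many (a c : ℝ) (H : Finset ℕ) (w N : ℕ) : ℕ :=
  ((Finset.Icc 1 N).filter (fun n : ℕ => (N : ℝ) / 3 < n ∧
    a * model H w n + c * (H.card / Real.log N) ≤ (primes H n : ℝ))).card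

open Classical in
/-- the number of the `N / 3 < n ≤ N` for which the prediction is wrong by at least `c |H| / log N` -/
noncomputable def wrong (c : ℝ) (H : Finset ℕ) (w N : ℕ) : ℕ :=
  ((Finset.Icc 1 N).filter (fun n : ℕ => (N : ℝ) / 3 < n ∧
    c * (H.card / Real.log N) ≤ |(primes H n : ℝ) - model H w n|)).card

theorem isBuchstab_om : IsBuchstab Pool.Agent.R529.BU.om :=
  ⟨Pool.Agent.R529.BU.om_cont.continuousOn, Pool.Agent.R529.BU.om_one_two, Pool.Agent.R529.BU.om_two⟩

theorem unique_aux (ω : ℝ → ℝ) (h : IsBuchstab ω) (n : ℕ) :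
    ∀ u : ℝ, 1 ≤ u → u ≤ n + 2 → ω u = Pool.Agent.R529.BU.om u := by
  obtain ⟨-, h1, h2⟩ := h
  have hbase : ∀ u : ℝ, 1 ≤ u → u ≤ 2 → ω u = Pool.Agent.R529.BU.om u := by
    intro u hu1 hu2
    have a1 := h1 u hu1 hu2
    have a2 := Pool.Agent.R529.BU.om_one_two u hu1 hu2
    exact mul_left_cancel₀ (show u ≠ 0 by linarith) (a1.trans a2.symm)
  induction n with
  | zero =>
    intro u hu1 hu2
    exact hbase u hu1 (by push_cast at hu2; linarith)
  | succ n ih =>
    intro u hu1 hu2
    rcases le_total u 2 with h3 | h3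
    · exact hbase u hu1 h3
    · have a1 := h2 u h3
      have a2 := Pool.Agent.R529.BU.om_two u h3
      have a3 : ∫ s in (1 : ℝ)..(u - 1), ω s = ∫ s in (1 : ℝ)..(u - 1), Pool.Agent.R529.BU.om s := by
        apply intervalIntegral.integral_congr
        intro s hs
        rw [Set.uIcc_of_le (by linarith)] at hs
        push_cast at hu2
        exact ih s hs.1 (by linarith [hs.2])
      rw [a3, ← a2] at a1
      exact mul_left_cancel₀ (show u ≠ 0 by linarith) a1

theorem unique (ω : ℝ → ℝ) (h : IsBuchstab ω) (u : ℝ) (hu : 1 ≤ u) : ω u = Pool.Agent.R529.BU.om u :=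
  unique_aux ω h ⌈u⌉₊ u hu (by linarith [Nat.le_ceil u])

theorem primes_eq (H : Finset ℕ) (n : ℕ) : primes H n = Pool.Agent.H560.MQ.cP H n := rfl

theorem rough_eq (H : Finset ℕ) (w n : ℕ) : rough H w n = Pool.Agent.H560.MQ.sW H w n := by
  classical
  unfold rough Pool.Agent.H560.MQ.sW Pool.Agent.H560.MQ.Pw
  congr 1
  ext h
  simp only [Finset.mem_filter, Finset.mem_Icc]
  constructor
  · rintro ⟨h1, h2⟩
    exact ⟨h1, fun p hp => h2 p hp.2 hp.1.2⟩
  · rintro ⟨h1, h2⟩
    exact ⟨h1, fun p hp hpw => h2 p ⟨⟨hp.one_lt.le, hpw⟩, hp⟩⟩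

theorem model_eq (H : Finset ℕ) (w n : ℕ) : model H w n = Pool.Agent.H560.MQ.pred H w n := by
  unfold model Pool.Agent.H560.MQ.pred Pool.Agent.H510R2.Maier.QQ
  rw [rough_eq]

theorem few_eq (a c : ℝ) (H : Finset ℕ) (w N : ℕ) : few a c H w N = Pool.Agent.H560.MQ.fewC a c H w N := by
  unfold few Pool.Agent.H560.MQ.fewC
  simp only [primes_eq, model_eq]

theorem many_eq (a c : ℝ) (H : Finset ℕ) (w N : ℕ) : many a c H w N = Pool.Agent.H560.MQ.manyC a c H w N := by
  unfold many Pool.Agent.H560.MQ.manyC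
  simp only [primes_eq, model_eq]

theorem wrong_eq (c : ℝ) (H : Finset ℕ) (w N : ℕ) : wrong c H w N = Pool.Agent.H560.MQ.badC c H w N := by
  unfold wrong Pool.Agent.H560.MQ.badC
  simp only [primes_eq, model_eq]

theorem win {t : ℝ} {N : ℕ} {H : Finset ℕ} (h : Shifts t N H) : Pool.Agent.H560.MQ.Win t N H := by
  refine ⟨fun x hx => ?_, h.2⟩
  rw [Finset.mem_Icc]
  exact ⟨(h.1 x hx).1, Nat.le_floor (h.1 x hx).2⟩

/-- **No local model with the primes up to `(log N) ^ δ`, `δ < 1`, predicts the number of primes among the numbers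
`n + h`, `h ∈ H`, for any set `H` of shifts.** -/
theorem result (ω : ℝ → ℝ) (hω : IsBuchstab ω) (t : ℝ) (ht : 1 < t) :
    -- (A) the levels `w` near `(log N) ^ δ`
    (∀ δ θ ε : ℝ, 0 < δ → δ < θ → θ < 1 → 0 < ε → ∃ ρ : ℝ, 0 < ρ ∧ ∃ c : ℝ, 0 < c ∧ ∀ᶠ N : ℕ in atTop,
      ∀ w : ℕ, (Real.log N) ^ (δ - ρ) ≤ w → (w : ℝ) ≤ (Real.log N) ^ (δ + ρ) → ∀ H : Finset ℕ, Shifts t N H →
        (N : ℝ) * Real.exp (-((Real.log N) ^ θ)) ≤ few (ω (t / θ) / ω (t / δ) + ε) c H w N ∧
        (N : ℝ) * Real.exp (-((Real.log N) ^ θ)) ≤ many (ω (t / θ) / ω (t / δ) - ε) c H w N) ∧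
    -- (B) all the levels `w ≤ (log N) ^ δ`, `δ < 1`: the prediction is wrong
    (∀ δ : ℝ, δ < 1 → ∃ θ : ℝ, θ < 1 ∧ ∃ c : ℝ, 0 < c ∧ ∀ᶠ N : ℕ in atTop,
      ∀ w : ℕ, (w : ℝ) ≤ (Real.log N) ^ δ → ∀ H : Finset ℕ, Shifts t N H →
        (N : ℝ) * Real.exp (-((Real.log N) ^ θ)) ≤ wrong c H w N) ∧
    -- (C) all the levels `w ≤ (log N) ^ δ`, `δ` small: it is too large, and too small, by a constant factor
    (∀ κ : ℝ, 0 < κ → ∃ δ : ℝ, 0 < δ ∧ ∃ c : ℝ, 0 < c ∧ ∀ᶠ N : ℕ in atTop,
      ∀ w : ℕ, (w : ℝ) ≤ (Real.log N) ^ δ → ∀ H : Finset ℕ, Shifts t N H →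
        (N : ℝ) * Real.exp (-((Real.log N) ^ κ)) ≤ few (1 - c) c H w N ∧
        (N : ℝ) * Real.exp (-((Real.log N) ^ κ)) ≤ many (1 + c) c H w N) := by
  refine ⟨?_, ?_, ?_⟩
  · intro δ θ ε hδ hδθ hθ1 hε
    have hθ : 0 < θ := by linarith
    obtain ⟨ρ, h1, -, c, h3, h4⟩ := Pool.Agent.H560.MQ.levA t δ θ ε ht hδ hδθ hθ1 hε
    refine ⟨ρ, h1, c, h3, ?_⟩
    have hr : ω (t / θ) / ω (t / δ) = Pool.Agent.H560.MQ.cw (t / θ) / Pool.Agent.H560.MQ.cw (t / δ) := by
      rw [unique ω hω (t / θ) (by rw [le_div_iff₀ hθ]; linarith), unique ω hω (t / δ) (by rw [le_div_iff₀ hδ]; linarith)]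
      unfold Pool.Agent.H560.MQ.cw
      rw [mul_div_mul_left _ _ (Real.exp_pos _).ne']
    filter_upwards [h4] with N hN
    intro w hw1 hw2 H hH
    rw [few_eq, many_eq, hr]
    exact hN w hw1 hw2 H (win hH)
  · intro δ hδ
    obtain ⟨θ, h1, c, h2, h3⟩ := Pool.Agent.H560.MQ.bad_all t δ ht hδ
    refine ⟨θ, h1, c, h2, ?_⟩
    filter_upwards [h3] with N hN
    intro w hw H hH
    rw [wrong_eq]
    exact hN w hw H (win hH)
  · intro κ hκ
    obtain ⟨δ, h1, c, h2, h3⟩ := Pool.Agent.H560.MQ.levC t κ ht hκ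
    refine ⟨δ, h1, c, h2, ?_⟩
    filter_upwards [h3] with N hN
    intro w hw H hH
    rw [few_eq, many_eq]
    exact hN w hw H (win hH)

end Pool.Agent.Results.MP_f9960f_nt.LocalModelsFailForAllShifts
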