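import Pool.Agent.H521.G.MaxGap2

open MeasureTheory Set Filter Topology
open scoped ENNReal ComplexConjugate

namespace Pool.Agent.Results.MP_f9960f_nt.MaximalGapFunctions

/-- A sequence of (Beurling) generalised primes `1 < p 0 < p 1 < ⋯ → ∞`. -/
structure GenPrimes (p : ℕ → ℝ) : Prop where
  one_lt : 1 < p 0
  strictMono : StrictMono p
  tendsto : Tendsto p atTop atTop

/-- The generalised integer `∏ p_j ^ (e j)` with exponent vector `e`. -/
noncomputable def genInt (p : ℕ → ℝ) (e : ℕ →₀ ℕ) : ℝ := e.prod fun j k => p j ^ k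

/-- `N_P(x)`, the number of generalised integers `≤ x`, counted with multiplicity. -/
noncomputable def countInts (p : ℕ → ℝ) (x : ℝ) : ℕ := Set.ncard {e : ℕ →₀ ℕ | genInt p e ≤ x}

/-- `π_P(x)`, the number of generalised primes `≤ x`. -/
noncomputable def countPrimes (p : ℕ → ℝ) (x : ℝ) : ℕ := Set.ncard {j : ℕ | p j ≤ x}

/-- The zeta function `ζ_P(s) = ∑ n^{-s}` over the generalised integers. -/
noncomputable def zetaP (p : ℕ → ℝ) (s : ℂ) : ℂ := ∑' e : ℕ →₀ ℕ, ((genInt p e : ℝ) : ℂ) ^ (-s)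

/-- The main term `∫_2^x (1 - ∑_{ρ ∈ Z} Re u^{ρ-1}) du / log u` of the prime counting function,
that is `li x - ∑_ρ li x^ρ` up to a constant, for a finite multiset `Z` of zeros. -/
noncomputable def primeMain (Z : Multiset ℂ) (x : ℝ) : ℝ :=
  ∫ u in (2 : ℝ)..x, (1 - (Z.map fun ρ => ((u : ℂ) ^ (ρ - 1)).re).sum) / Real.log u

/-- `p` is a system of generalised primes whose zeta function continues to `Re s > 1/2`
with only a simple pole at `1`, with zeros exactly `Z` there (with multiplicity) and with the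
Lindelöf bound, and with square-root error terms in the counting of generalised integers and
of generalised primes.  For `Z = 0` this is the Riemann hypothesis for `p`. -/
structure System (Z : Multiset ℂ) (p : ℕ → ℝ) : Prop where
  primes : GenPrimes p
  summable : ∀ s : ℂ, 1 < s.re → Summable fun e : ℕ →₀ ℕ => ((genInt p e : ℝ) : ℂ) ^ (-s)
  zeta : ∃ g : ℂ → ℂ, DifferentiableOn ℂ g {s : ℂ | 1 / 2 < s.re} ∧
    (∀ s : ℂ, 1 < s.re → (s - 1) * zetaP p s = (Z.map fun ρ => s - ρ).prod * Complex.exp (g s)) ∧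
    ∀ ε : ℝ, 0 < ε → ∃ C : ℝ, ∀ s : ℂ, 1 / 2 + ε ≤ s.re →
      ‖(Z.map fun ρ => s - ρ).prod * Complex.exp (g s)‖ ≤ C * (1 + ‖s‖) ^ (1 + ε)
  ints : ∃ κ : ℝ, 0 < κ ∧ ∀ ε : ℝ, 0 < ε → ∃ C : ℝ, ∀ x : ℝ, 1 ≤ x →
    |(countInts p x : ℝ) - κ * x| ≤ C * x ^ (1 / 2 + ε)
  pnt : ∀ ε : ℝ, 0 < ε → ∃ C : ℝ, ∀ x : ℝ, 2 ≤ x →
    |(countPrimes p x : ℝ) - primeMain Z x| ≤ C * x ^ (1 / 2 + ε)

/-- The maximal gap function `G_P(x) = max_{p_n ≤ x} (p_{n+1} - p_n)`. -/
noncomputable def maxGap (p : ℕ → ℝ) (x : ℝ) : ℝ := sSup {g | ∃ n, p n ≤ x ∧ g = p (n + 1) - p n}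

open Pool.Agent.H521 Pool.Agent.H521.G in
/-- **Theorem.** The orders of magnitude (up to asymptotic equivalence) of the maximal gap
functions of systems of generalised primes with Riemann hypothesis (or any other finite set of
zeros) and with square-root error terms. -/
theorem result (Z : Multiset ℂ) (hZ : ∀ ρ ∈ Z, 1 / 2 < ρ.re ∧ ρ.re < 1)
    (hZc : Z.map conj = Z) (Ψ : ℝ → ℝ) (X : ℝ) (hmono : MonotoneOn Ψ (Ici X))
    (hlog : Tendsto (fun x => Ψ x / Real.log x) atTop atTop)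
    (hsv : Tendsto (fun x => Ψ (x + Ψ x) / Ψ x) atTop (𝓝 1)) :
    (∃ p : ℕ → ℝ, System Z p ∧ Tendsto (fun x => maxGap p x / Ψ x) atTop (𝓝 1)) ↔
      ∀ ε : ℝ, 0 < ε → ∀ᶠ x in atTop, Ψ x ≤ x ^ (1 / 2 + ε) := by
  have hZ1 : ∀ ρ ∈ Z, ρ.re < 1 := fun ρ h => (hZ ρ h).2
  constructor
  · rintro ⟨p, hS, h⟩ ε hε
    have hpos : ∀ᶠ x in atTop, 0 < Ψ x := by
      filter_upwards [hlog.eventually_gt_atTop 0, eventually_gt_atTop 1] with x hx hx1
      have := Real.log_pos hx1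
      rwa [lt_div_iff₀ this, zero_mul] at hx
    exact maxgap_nec hZ1 hS.primes.strictMono hS.primes.tendsto hS.pnt hpos h ε hε
  · intro hup
    obtain ⟨p, hS, h⟩ := maxgap_exists hZ1 hZc hmono hlog hsv hup
    exact ⟨p, ⟨⟨by linarith [hS.three_le 0], hS.mono, hS.tendsto⟩, hS.summable, hS.zeta,
      hS.ints, hS.pnt⟩, h⟩

end Pool.Agent.Results.MP_f9960f_nt.MaximalGapFunctions
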